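import Pool.Agent.TH605.Pinch.Upper
import Pool.Agent.H821R2.Riem
import Pool.Agent.H821R2.Defs

/-!
Upper estimate on manifolds.
-/

open Module Bundle Manifold ContDiff

set_option autoImplicit false
set_option linter.unusedSectionVars false

noncomputable section

namespace Pool.Agent.TH605.Pinch

open Pool.Agent.H821R2

theorem forces_of_lt {d : ℕ} (hd : 0 < d) {δ : ℝ} (hδ0 : 0 < δ) (hδ1 : δ ≤ 1)
    (hδ : 2 * (((d / 2 : ℕ) : ℝ) - 1) < (2 * ((d / 2 : ℕ) : ℝ) + 1) * δ) : Forces d δ := by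
  intro M _ _ _ _ _ g cov R hLC hR hpin x
  have : Nonempty (Fin d) := ⟨⟨0, hd⟩⟩
  have : Nontrivial (EuclideanSpace ℝ (Fin d)) := by
    apply Module.nontrivial_of_finrank_pos (R := ℝ)
    rw [finrank_euclideanSpace_fin]
    exact hd
  have : LocallyCompactSpace M := ChartedSpace.locallyCompactSpace (EuclideanSpace ℝ (Fin d)) M
  let _ : RiemannianBundle (fun x : M => TangentSpace (𝓡 d) x) := ⟨g.toRiemannianMetric⟩
  have hB : IsLeviCivitaB cov := ⟨hLC.smooth, hLC.metric, hLC.torsionFree⟩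
  have hT := isCurvatureTensor hB hR x
  have hfd : FiniteDimensional ℝ (TangentSpace (𝓡 d) x) :=
    inferInstanceAs (FiniteDimensional ℝ (EuclideanSpace ℝ (Fin d)))
  have hfr : finrank ℝ (TangentSpace (𝓡 d) x) = d := by
    have : finrank ℝ (EuclideanSpace ℝ (Fin d)) = d := finrank_euclideanSpace_fin
    exact this
  refine ⟨curvForm (R x), ?_, ?_⟩
  · intro a b c e
    exact curvForm_wedge hT a b c e
  · intro η hη
    refine curvForm_pos hT hδ0 hδ1 (by rw [hfr]; exact hδ) ?_ ?_ η hη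
    · intro u v huv
      exact hpin.1 x u v huv
    · intro u v u' v' huv huv'
      exact hpin.2 x u v u' v' huv huv'

end Pool.Agent.TH605.Pinch
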