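import Pool.Agent.TH605.Pinch.Jm
import Pool.Agent.TH605.Pinch.UpperM

/-!
The example: for `δ < 2(m-1)/(2m+1)` there is a pointwise `δ`-pinched metric whose curvature
operator is not positive at one point.
-/

open Module Bundle Manifold ContDiff
open scoped Topology

set_option autoImplicit false
set_option synthInstance.maxHeartbeats 400000
set_option maxHeartbeats 4000000
set_option linter.unusedSectionVars false

noncomputable section

namespace Pool.Agent.TH605.Pinch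

open Pool.Agent.H821R2 Pool.Agent.H893R5.HO

variable {A : Type*} [NormedAddCommGroup A] [InnerProductSpace ℝ A] [FiniteDimensional ℝ A]

section

variable {S : A →L[ℝ] A →L[ℝ] A →L[ℝ] A} {C : ℝ} {r : ℝ} {hr : 0 < r}

theorem Wq_zero (a : A) : Wq S 0 a = a := by
  simp [Wq_apply]

theorem Pexp_zero (hS : QS S C) (a b : A) :
    (eb (A := A) r hr).Pexp (Wq S) 0 a b 0 = mainP S 0 a b := by
  rw [Emb.Pexp, Dir_Dir_FF hr hS, Dir_Dir_FF hr hS, Dir_Dir_FF hr hS, Dir_Dir_FF hr hS,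
    FF_fderiv hr hS, FF_fderiv hr hS, mainP_zero 0 a b rfl]
  simp only [Wq_zero, map_zero, zero_apply, inner_zero_right, mul_zero, add_zero, sub_zero]
  rw [hS.symm b a]
  ring

/-- the curvature at the origin -/
theorem kap_origin (hS : QS S C) (hpos : ∀ z : A, ‖z‖ < r → ‖S z z‖ ≤ 1 / 2) [Nontrivial A]
    {g : ContMDiffRiemannianMetric 𝓘(ℝ, A) ∞ A (fun x : A => TangentSpace 𝓘(ℝ, A) x)}
    (hg : (eb (A := A) r hr).Dual g (Wq S))
    {cov : CovariantDerivative 𝓘(ℝ, A) A (TangentSpace 𝓘(ℝ, A) : A → Type _)}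
    (h : IsLeviCivita g cov) {R : CurvField 𝓘(ℝ, A) A} (hR : IsRiemannTensor cov R)
    (x y : TangentSpace 𝓘(ℝ, A) (0 : A)) :
    g.inner 0 (R 0 x y y) x =
      mainP S 0 ((eb (A := A) r hr).d 0 x) ((eb (A := A) r hr).d 0 y) := by
  have hW := com_Wq hr hS hpos
  have hj : (eb (A := A) r hr).j 0 = 0 := jb_zero r
  obtain ⟨γ, -, hγ, hK⟩ := Emb.curv_eq hW hg h hR 0 ((eb (A := A) r hr).d 0 x)
    ((eb (A := A) r hr).d 0 y) x y (by rw [hj, Wq_zero]) (by rw [hj, Wq_zero])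
  rw [hj] at hγ hK
  have hγ0 : γ = 0 := by
    rw [Wq_zero] at hγ
    rw [hγ, Emb.Br, (hasWa hS _ _).fderiv, (hasWa hS _ _).fderiv]
    simp
  rw [hK, hγ0, Pexp_zero hS]

end

section

variable {β : ℝ} {J : A →L[ℝ] A} {C : ℝ} {r : ℝ} {hr : 0 < r}

theorem curv_origin (hS : QS (Sq β J) C) (hJ : ∀ x y, inner ℝ (J x) y = - inner ℝ (J y) x)
    (hpos : ∀ z : A, ‖z‖ < r → ‖Sq β J z z‖ ≤ 1 / 2) [Nontrivial A]
    {g : ContMDiffRiemannianMetric 𝓘(ℝ, A) ∞ A (fun x : A => TangentSpace 𝓘(ℝ, A) x)}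
    (hg : (eb (A := A) r hr).Dual g (Wq (Sq β J)))
    {cov : CovariantDerivative 𝓘(ℝ, A) A (TangentSpace 𝓘(ℝ, A) : A → Type _)}
    (h : IsLeviCivita g cov) {R : CurvField 𝓘(ℝ, A) A} (hR : IsRiemannTensor cov R)
    (x y z w : TangentSpace 𝓘(ℝ, A) (0 : A)) :
    g.inner 0 (R 0 x y z) w =
      RF β J ((eb (A := A) r hr).d 0 x) ((eb (A := A) r hr).d 0 y)
        ((eb (A := A) r hr).d 0 z) ((eb (A := A) r hr).d 0 w) := by
  have hk : ∀ s t : TangentSpace 𝓘(ℝ, A) (0 : A), g.inner 0 (R 0 s t t) s =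
      kF β J ((eb (A := A) r hr).d 0 s) ((eb (A := A) r hr).d 0 t) := by
    intro s t
    rw [kap_origin hS hpos hg h hR, mainP_Sq hJ, kF]
  let _ : RiemannianBundle (fun x : A => TangentSpace 𝓘(ℝ, A) x) := ⟨g.toRiemannianMetric⟩
  have hB : IsLeviCivitaB cov := ⟨h.smooth, h.metric, h.torsionFree⟩
  have hT := isCurvatureTensor hB hR (0 : A)
  have hbi := berger_identity hT x y z w
  have hk' : ∀ s t : TangentSpace 𝓘(ℝ, A) (0 : A), kap (R 0) s t =
      kF β J ((eb (A := A) r hr).d 0 s) ((eb (A := A) r hr).d 0 t) := hk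
  simp only [hk'] at hbi
  simp only [map_add, map_sub] at hbi
  rw [← RF_berger hJ] at hbi
  have : inner ℝ (R 0 x y z) w = RF β J ((eb (A := A) r hr).d 0 x) ((eb (A := A) r hr).d 0 y)
        ((eb (A := A) r hr).d 0 z) ((eb (A := A) r hr).d 0 w) := by linarith
  exact this

end

theorem not_forces {d : ℕ} (hd : 4 ≤ d) {δ : ℝ} (hδ0 : 0 < δ)
    (hδ : (2 * ((d / 2 : ℕ) : ℝ) + 1) * δ < 2 * (((d / 2 : ℕ) : ℝ) - 1)) : ¬ Forces d δ := by
  intro hF
  obtain ⟨m, hm⟩ : ∃ m, m = d / 2 := ⟨_, rfl⟩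
  have hm2 : 2 ≤ m := by omega
  have hm2' : (2 : ℝ) ≤ m := by exact_mod_cast hm2
  obtain ⟨u, v, huv⟩ := exists_UV d
  rw [← hm] at hδ
  have hden : (0 : ℝ) < 2 * m + 1 := by linarith
  set β : ℝ := 1 / (2 * m + 1) with hβ
  have hβ0 : 0 < β := by positivity
  have hβ1 : β * (2 * m + 1) = 1 := by rw [hβ]; field_simp
  set δc : ℝ := 1 - 3 * β with hδc
  have hδc1 : δ < δc := by
    have : (2 * (m : ℝ) + 1) * δ < (2 * m + 1) * δc := by
      rw [hδc]
      linarith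
    exact lt_of_mul_lt_mul_left this hden.le
  set lo : ℝ := (δ + δc) / 2 with hlo
  have hlo0 : 0 < lo := by rw [hlo]; linarith
  have hlo1 : lo < δc := by rw [hlo]; linarith
  have hlo2 : δ < lo := by rw [hlo]; linarith
  set hi : ℝ := lo / δ with hhi
  have hhi1 : 1 < hi := by rw [hhi, one_lt_div hδ0]; exact hlo2
  have : Nonempty (Fin d) := ⟨⟨0, by omega⟩⟩
  have : Nontrivial (EuclideanSpace ℝ (Fin d)) := by
    apply Module.nontrivial_of_finrank_pos (R := ℝ)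
    rw [finrank_euclideanSpace_fin]
    omega
  set J : EuclideanSpace ℝ (Fin d) →L[ℝ] EuclideanSpace ℝ (Fin d) := Jm u v with hJ
  have hS : QS (Sq β J) (2 / 3 + β) := QS_Sq hβ0.le (Jm_norm huv)
  have hsk : ∀ x y, inner ℝ (J x) y = - inner ℝ (J y) x := Jm_skew u v
  have hb : ∀ a b : EuclideanSpace ℝ (Fin d), OP a b →
      lo < mainP (Sq β J) 0 a b ∧ mainP (Sq β J) 0 a b < hi := by
    intro a b hab
    rw [mainP_Sq hsk]
    have h1 := Jm_OP huv hab
    obtain ⟨ha, hb, hc⟩ := hab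
    have h2 : area a b = 1 := by rw [area, ha, hb, hc]; norm_num
    rw [h2]
    have h3 : 0 ≤ inner ℝ (J a) b ^ 2 := sq_nonneg (inner ℝ (J a) b : ℝ)
    have h4 : 3 * β * inner ℝ (J a) b ^ 2 ≤ 3 * β * 1 :=
      mul_le_mul_of_nonneg_left h1 (by positivity)
    have h5 : 0 ≤ 3 * β * inner ℝ (J a) b ^ 2 := mul_nonneg (by positivity) h3
    constructor <;> linarith
  obtain ⟨r, hr, hpos, hbd⟩ := exists_r (C := 2 / 3 + β) hb
  have hW := com_Wq hr hS hpos
  obtain ⟨g, hg⟩ := Emb.exists_metric hW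
  obtain ⟨cov, R, hLC, hR⟩ := Emb.exists_cov hW hg
  have hsec := fun p u v huv => sec_bounds hS hpos hbd hg hLC hR p u v huv
  have hpin : PointwisePinched g R δ := by
    refine ⟨fun p x y hxy => lt_of_lt_of_le hlo0 (hsec p x y hxy).1, ?_⟩
    intro p x y x' y' hxy hxy'
    have h1 := (hsec p x y hxy).1
    have h2 := (hsec p x' y' hxy').2
    have h3 : δ * sec g R p x' y' ≤ δ * hi := mul_le_mul_of_nonneg_left h2 hδ0.le
    have h4 : δ * hi = lo := by rw [hhi]; field_simp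
    linarith
  have hpos' := hF (EuclideanSpace ℝ (Fin d)) g cov R hLC hR hpin 0
  obtain ⟨B, hB1, hB2⟩ := hpos'
  -- the bivector
  have hj : (eb (A := EuclideanSpace ℝ (Fin d)) r hr).j 0 = 0 := jb_zero r
  have hx : ∀ a : EuclideanSpace ℝ (Fin d), ∃ x : TangentSpace (𝓡 d) (0 : EuclideanSpace ℝ (Fin d)),
      (eb (A := EuclideanSpace ℝ (Fin d)) r hr).d 0 x = a := fun a => by
    obtain ⟨x, hx⟩ := (eb (A := EuclideanSpace ℝ (Fin d)) r hr).rng 0 a
    exact ⟨x, hx⟩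
  choose X hX using fun i => hx (u i)
  choose Y hY using fun i => hx (v i)
  set θ : ⋀[ℝ]^2 (TangentSpace (𝓡 d) (0 : EuclideanSpace ℝ (Fin d))) :=
    ∑ i, exteriorPower.ιMulti ℝ 2 ![X i, Y i] with hθ
  have hθ0 : θ ≠ 0 := by
    intro h0
    have h1 : exteriorPower.map 2
        ((eb (A := EuclideanSpace ℝ (Fin d)) r hr).d 0).toLinearMap θ = ∑ i, wedge (u i) (v i) := by
      rw [hθ, map_sum]
      refine Finset.sum_congr rfl fun i _ => ?_
      rw [exteriorPower.map_apply_ιMulti, wedge]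
      congr 1
      ext1 k
      fin_cases k
      · exact hX i
      · exact hY i
    rw [h0, map_zero] at h1
    have h2 := congrArg (pair (u ⟨0, by omega⟩) (v ⟨0, by omega⟩)) h1
    rw [map_zero, map_sum] at h2
    simp only [pair_wedge, huv.uu, huv.vv, huv.uv] at h2
    rw [Finset.sum_eq_single ⟨0, by omega⟩] at h2
    · norm_num at h2
    · intro i _ hi
      rw [if_neg (Ne.symm hi)]
      simp
    · intro hh
      exact absurd (Finset.mem_univ _) hh
  have hBθ := hB2 θ hθ0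
  have hBθ' : B θ θ = ∑ i, ∑ j, RF β J (u i) (v i) (v j) (u j) := by
    rw [hθ]
    simp only [map_sum, LinearMap.sum_apply]
    rw [Finset.sum_comm]
    refine Finset.sum_congr rfl fun i _ => Finset.sum_congr rfl fun j _ => ?_
    rw [hB1]
    have := curv_origin (hr := hr) hS hsk hpos hg hLC hR (X i) (Y i) (Y j) (X j)
    rw [hX, hX, hY, hY] at this
    exact this
  rw [hBθ', sum_RF huv, ← hm, hβ1] at hBθ
  simp at hBθ

end Pool.Agent.TH605.Pinch
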