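import Pool.Agent.TH605.Pinch.SecB

/-!
The quadratic part built from a skew map `J`.
-/

open Module Bundle Manifold ContDiff
open scoped Topology

set_option autoImplicit false
set_option synthInstance.maxHeartbeats 400000
set_option maxHeartbeats 4000000
set_option linter.unusedSectionVars false

noncomputable section

namespace Pool.Agent.TH605.Pinch

open Pool.Agent.H821R2 Pool.Agent.H893R5.HO

variable {A : Type*} [NormedAddCommGroup A] [InnerProductSpace ℝ A] [FiniteDimensional ℝ A]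

/-- `x, y ↦ ⟨x, y⟩ id` -/
def T1 : A →L[ℝ] A →L[ℝ] A →L[ℝ] A :=
  (ContinuousLinearMap.compL ℝ A ℝ (A →L[ℝ] A)
    (ContinuousLinearMap.toSpanSingleton ℝ (ContinuousLinearMap.id ℝ A))).comp (innerSL ℝ)

theorem T1_apply (x y a : A) : T1 x y a = (inner ℝ x y : ℝ) • a := by
  simp [T1]

/-- `x, y ↦ ⟨x, ·⟩ y` -/
def T2 : A →L[ℝ] A →L[ℝ] A →L[ℝ] A :=
  (ContinuousLinearMap.smulRightL ℝ A A).comp (innerSL ℝ)

theorem T2_apply (x y a : A) : T2 x y a = (inner ℝ x a : ℝ) • y := by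
  simp [T2]

/-- `x, y ↦ ⟨Jx, ·⟩ Jy` -/
def T3 (J : A →L[ℝ] A) : A →L[ℝ] A →L[ℝ] A →L[ℝ] A :=
  ((T2.comp J).flip.comp J).flip

theorem T3_apply (J : A →L[ℝ] A) (x y a : A) : T3 J x y a = (inner ℝ (J x) a : ℝ) • J y := by
  simp [T3, T2_apply]

/-- the quadratic part -/
def Sq (β : ℝ) (J : A →L[ℝ] A) : A →L[ℝ] A →L[ℝ] A →L[ℝ] A :=
  (1 / 3 : ℝ) • T1 - (1 / 6 : ℝ) • (T2 + (T2 (A := A)).flip) - (β / 2) • (T3 J + (T3 J).flip)

theorem Sq_apply (β : ℝ) (J : A →L[ℝ] A) (x y a : A) :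
    Sq β J x y a = (1 / 3 : ℝ) • ((inner ℝ x y : ℝ) • a) -
      (1 / 6 : ℝ) • ((inner ℝ x a : ℝ) • y + (inner ℝ y a : ℝ) • x) -
      (β / 2) • ((inner ℝ (J x) a : ℝ) • J y + (inner ℝ (J y) a : ℝ) • J x) := by
  simp only [Sq, sub_apply, smul_apply, add_apply, ContinuousLinearMap.flip_apply, T1_apply,
    T2_apply, T3_apply]

theorem QS_Sq {β : ℝ} (hβ : 0 ≤ β) {J : A →L[ℝ] A} (hJn : ∀ x, ‖J x‖ ≤ ‖x‖) :
    QS (Sq β J) (2 / 3 + β) where
  nonneg := by linarith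
  bd := by
    intro x y a
    rw [Sq_apply]
    have h1 : ‖(1 / 3 : ℝ) • ((inner ℝ x y : ℝ) • a)‖ ≤ 1 / 3 * (‖x‖ * ‖y‖ * ‖a‖) := by
      rw [norm_smul, norm_smul]
      have := norm_inner_le_norm (𝕜 := ℝ) x y
      rw [Real.norm_of_nonneg (by norm_num : (0 : ℝ) ≤ 1 / 3)]
      gcongr
    have h2 : ‖(1 / 6 : ℝ) • ((inner ℝ x a : ℝ) • y + (inner ℝ y a : ℝ) • x)‖ ≤
        1 / 6 * (2 * (‖x‖ * ‖y‖ * ‖a‖)) := by
      rw [norm_smul, Real.norm_of_nonneg (by norm_num : (0 : ℝ) ≤ 1 / 6)]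
      have e1 := norm_inner_le_norm (𝕜 := ℝ) x a
      have e2 := norm_inner_le_norm (𝕜 := ℝ) y a
      gcongr
      refine (norm_add_le _ _).trans ?_
      rw [norm_smul, norm_smul]
      have e3 : ‖(inner ℝ x a : ℝ)‖ * ‖y‖ ≤ ‖x‖ * ‖a‖ * ‖y‖ := by gcongr
      have e4 : ‖(inner ℝ y a : ℝ)‖ * ‖x‖ ≤ ‖y‖ * ‖a‖ * ‖x‖ := by gcongr
      nlinarith
    have h3 : ‖(β / 2) • ((inner ℝ (J x) a : ℝ) • J y + (inner ℝ (J y) a : ℝ) • J x)‖ ≤
        β / 2 * (2 * (‖x‖ * ‖y‖ * ‖a‖)) := by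
      rw [norm_smul, Real.norm_of_nonneg (by linarith : (0 : ℝ) ≤ β / 2)]
      have e1 := norm_inner_le_norm (𝕜 := ℝ) (J x) a
      have e2 := norm_inner_le_norm (𝕜 := ℝ) (J y) a
      have e5 := hJn x
      have e6 := hJn y
      gcongr
      refine (norm_add_le _ _).trans ?_
      rw [norm_smul, norm_smul]
      have e3 : ‖(inner ℝ (J x) a : ℝ)‖ * ‖J y‖ ≤ ‖x‖ * ‖a‖ * ‖y‖ := by
        have : ‖(inner ℝ (J x) a : ℝ)‖ ≤ ‖x‖ * ‖a‖ := e1.trans (by gcongr)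
        gcongr
      have e4 : ‖(inner ℝ (J y) a : ℝ)‖ * ‖J x‖ ≤ ‖y‖ * ‖a‖ * ‖x‖ := by
        have : ‖(inner ℝ (J y) a : ℝ)‖ ≤ ‖y‖ * ‖a‖ := e2.trans (by gcongr)
        gcongr
      nlinarith
    refine (norm_sub_le _ _).trans ?_
    refine (add_le_add_left (norm_sub_le _ _) _).trans ?_
    nlinarith
  symm := by
    intro x y
    ext a
    rw [Sq_apply, Sq_apply, real_inner_comm x y, add_comm ((inner ℝ x a : ℝ) • y),
      add_comm ((inner ℝ (J x) a : ℝ) • J y)]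
  adj := by
    intro x y a b
    rw [Sq_apply, Sq_apply]
    simp only [inner_sub_left, inner_sub_right, inner_smul_left, inner_smul_right, inner_add_left,
      inner_add_right, real_inner_comm a]
    simp
    ring

/-- the curvature form at the origin -/
theorem mainP_Sq {β : ℝ} {J : A →L[ℝ] A} (hJ : ∀ x y, inner ℝ (J x) y = - inner ℝ (J y) x)
    (a b : A) :
    mainP (Sq β J) 0 a b = area a b - 3 * β * inner ℝ (J a) b ^ 2 := by
  rw [mainP_zero 0 a b rfl, Sq_apply, Sq_apply, Sq_apply]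
  have h1 := hJ a b
  have h2 : inner ℝ (J a) a = (0 : ℝ) := by have := hJ a a; linarith
  have h3 : inner ℝ (J b) b = (0 : ℝ) := by have := hJ b b; linarith
  have h4 : inner ℝ (J b) a = - inner ℝ (J a) b := hJ b a
  have c1 : inner ℝ b (J b) = (0 : ℝ) := by rw [real_inner_comm]; exact h3
  have c2 : inner ℝ a (J a) = (0 : ℝ) := by rw [real_inner_comm]; exact h2
  have c3 : inner ℝ b (J a) = inner ℝ (J a) b := real_inner_comm _ _
  have c4 : inner ℝ a (J b) = - inner ℝ (J a) b := by rw [real_inner_comm]; exact h4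
  have c5 : inner ℝ b a = inner ℝ a b := real_inner_comm _ _
  simp only [inner_sub_right, inner_smul_right, inner_add_right, c2, c3, c4, c5, h3, h4,
    area]
  ring

end Pool.Agent.TH605.Pinch
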