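import Pool.Agent.H893R5.HO.GenRed

/-!
Euclidean space immersed onto a small ball.
-/

open Module Bundle Manifold ContDiff
open scoped Topology

set_option autoImplicit false
set_option linter.unusedSectionVars false

noncomputable section

namespace Pool.Agent.TH605.Pinch

open Pool.Agent.H821R2 Pool.Agent.H893R5.HO

variable {A : Type*} [NormedAddCommGroup A] [InnerProductSpace ℝ A] [FiniteDimensional ℝ A]

/-- the diffeomorphism of `A` onto the ball of radius `r` -/
def jb (r : ℝ) : A → A := OpenPartialHomeomorph.univBall (0 : A) r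

theorem jb_smooth (r : ℝ) : ContDiff ℝ ∞ (jb r : A → A) := OpenPartialHomeomorph.contDiff_univBall

theorem jb_zero (r : ℝ) : jb r (0 : A) = 0 := OpenPartialHomeomorph.univBall_apply_zero _ _

theorem jb_mem {r : ℝ} (hr : 0 < r) (p : A) : ‖jb r p‖ < r := by
  have h := (OpenPartialHomeomorph.univBall (0 : A) r).map_source (x := p) (by
    rw [OpenPartialHomeomorph.univBall_source]; trivial)
  rw [OpenPartialHomeomorph.univBall_target _ hr, mem_ball_zero_iff] at h
  exact h

theorem jb_inj {r : ℝ} (hr : 0 < r) (p v : A) (h : fderiv ℝ (jb r) p v = 0) : v = 0 := by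
  have h1 : ContDiffOn ℝ ∞ (OpenPartialHomeomorph.univBall (0 : A) r).symm (Metric.ball (0 : A) r) :=
    OpenPartialHomeomorph.contDiffOn_univBall_symm
  have h2 : jb r p ∈ Metric.ball (0 : A) r := by
    rw [mem_ball_zero_iff]; exact jb_mem hr p
  have h3 : DifferentiableAt ℝ (OpenPartialHomeomorph.univBall (0 : A) r).symm (jb r p) :=
    ((h1 (jb r p) h2).contDiffAt (Metric.isOpen_ball.mem_nhds h2)).differentiableAt (by simp)
  have h4 : DifferentiableAt ℝ (jb r) p := (jb_smooth r).differentiable (by simp) p
  have h5 := fderiv_comp p h3 h4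
  have h6 : (OpenPartialHomeomorph.univBall (0 : A) r).symm ∘ (jb r) = id := by
    funext x
    exact (OpenPartialHomeomorph.univBall (0 : A) r).left_inv (by
      rw [OpenPartialHomeomorph.univBall_source]; trivial)
  rw [h6, fderiv_id] at h5
  have h7 := congrArg (fun T : A →L[ℝ] A => T v) h5
  simp only [ContinuousLinearMap.comp_apply, h, map_zero] at h7
  exact h7

/-- Euclidean space immersed onto the ball of radius `r` -/
def eb (r : ℝ) (hr : 0 < r) : Emb 𝓘(ℝ, A) A A where
  B := innerSL ℝ
  Bsymm := fun a b => real_inner_comm _ _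
  Bpos := fun a ha => by
    have : 0 < inner ℝ a a := real_inner_self_pos.2 ha
    exact this
  j := jb r
  hj := (jb_smooth r).contMDiff
  inj := fun p v h => by
    have h1 : mvfderiv 𝓘(ℝ, A) (jb r) p v = fderiv ℝ (jb r) p v := by
      simp [mvfderiv, mfderiv_eq_fderiv]
      rfl
    rw [h1] at h
    exact jb_inj hr p v h
  P := fun _ => ContinuousLinearMap.id ℝ A
  hP := contDiff_const
  Psymm := fun p a b => rfl
  Pd := fun p v => rfl
  rng := fun p a => by
    have h1 : ∀ v, mvfderiv 𝓘(ℝ, A) (jb r) p v = fderiv ℝ (jb r) p v := by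
      intro v
      simp [mvfderiv, mfderiv_eq_fderiv]
      rfl
    have hinj : Function.Injective (fderiv ℝ (jb r) p : A →L[ℝ] A) := by
      intro v w hvw
      have := jb_inj hr p (v - w) (by rw [map_sub, hvw, sub_self])
      exact sub_eq_zero.1 this
    have hs := (LinearMap.injective_iff_surjective (f := (fderiv ℝ (jb r) p).toLinearMap)).1 hinj
    obtain ⟨v, hv⟩ := hs a
    exact ⟨(v : A), (h1 v).trans hv⟩

end Pool.Agent.TH605.Pinch
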