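import Pool.Agent.TH605.Pinch.Alg

/-!
The skew map `J` of an orthonormal family and the curvature form at the origin.
-/

open Module Bundle Manifold ContDiff
open scoped Topology

set_option autoImplicit false
set_option synthInstance.maxHeartbeats 400000
set_option maxHeartbeats 4000000
set_option linter.unusedSectionVars false

noncomputable section

namespace Pool.Agent.TH605.Pinch

open Pool.Agent.H821R2 Pool.Agent.H893R5.HO

variable {A : Type*} [NormedAddCommGroup A] [InnerProductSpace ℝ A] [FiniteDimensional ℝ A]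

/-- `u, v` together form an orthonormal family -/
structure UV {m : ℕ} (u v : Fin m → A) : Prop where
  uu : ∀ i j, inner ℝ (u i) (u j) = if i = j then (1 : ℝ) else 0
  vv : ∀ i j, inner ℝ (v i) (v j) = if i = j then (1 : ℝ) else 0
  uv : ∀ i j, inner ℝ (u i) (v j) = (0 : ℝ)

variable {m : ℕ} {u v : Fin m → A}

/-- `J u_i = v_i`, `J v_i = - u_i` -/
def Jm (u v : Fin m → A) : A →L[ℝ] A :=
  ∑ i, ((innerSL ℝ (u i)).smulRight (v i) - (innerSL ℝ (v i)).smulRight (u i))

theorem Jm_apply (u v : Fin m → A) (x : A) :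
    Jm u v x = ∑ i, ((inner ℝ (u i) x : ℝ) • v i - (inner ℝ (v i) x : ℝ) • u i) := by
  simp [Jm]

theorem Jm_inner (u v : Fin m → A) (x y : A) :
    inner ℝ (Jm u v x) y = ∑ i, ((inner ℝ (u i) x : ℝ) * inner ℝ (v i) y -
      (inner ℝ (v i) x : ℝ) * inner ℝ (u i) y) := by
  rw [Jm_apply, sum_inner]
  refine Finset.sum_congr rfl fun i _ => ?_
  rw [inner_sub_left, inner_smul_left, inner_smul_left]
  rfl

theorem Jm_skew (u v : Fin m → A) (x y : A) : inner ℝ (Jm u v x) y = - inner ℝ (Jm u v y) x := by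
  rw [Jm_inner, Jm_inner, ← Finset.sum_neg_distrib]
  refine Finset.sum_congr rfl fun i _ => ?_
  ring

theorem Jm_u (h : UV u v) (j : Fin m) : Jm u v (u j) = v j := by
  rw [Jm_apply, Finset.sum_eq_single j]
  · have h1 : inner ℝ (v j) (u j) = (0 : ℝ) := by rw [real_inner_comm]; exact h.uv j j
    rw [h.uu, if_pos rfl, h1]
    simp
  · intro i _ hij
    have h1 : inner ℝ (v i) (u j) = (0 : ℝ) := by rw [real_inner_comm]; exact h.uv j i
    rw [h.uu, if_neg hij, h1]
    simp
  · intro hj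
    exact absurd (Finset.mem_univ _) hj

theorem Jm_v (h : UV u v) (j : Fin m) : Jm u v (v j) = - u j := by
  rw [Jm_apply, Finset.sum_eq_single j]
  · rw [h.uv, h.vv, if_pos rfl]
    simp
  · intro i _ hij
    rw [h.uv, h.vv, if_neg hij]
    simp
  · intro hj
    exact absurd (Finset.mem_univ _) hj

theorem Jm_inner_u (h : UV u v) (x : A) (i : Fin m) :
    inner ℝ (u i) (Jm u v x) = - inner ℝ (v i) x := by
  rw [real_inner_comm, Jm_skew, Jm_u h]

theorem Jm_inner_v (h : UV u v) (x : A) (i : Fin m) :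
    inner ℝ (v i) (Jm u v x) = (inner ℝ (u i) x : ℝ) := by
  rw [real_inner_comm, Jm_skew, Jm_v h, inner_neg_left, neg_neg]

theorem Jm_sq (h : UV u v) (x : A) :
    inner ℝ (Jm u v x) (Jm u v x) = ∑ i, ((inner ℝ (u i) x : ℝ) ^ 2 + (inner ℝ (v i) x : ℝ) ^ 2) := by
  rw [Jm_inner]
  refine Finset.sum_congr rfl fun i _ => ?_
  rw [Jm_inner_u h, Jm_inner_v h]
  ring

theorem Jm_norm (h : UV u v) (x : A) : ‖Jm u v x‖ ≤ ‖x‖ := by
  have h1 : ‖Jm u v (Jm u v x)‖ ^ 2 = ‖Jm u v x‖ ^ 2 := by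
    rw [← real_inner_self_eq_norm_sq, ← real_inner_self_eq_norm_sq, Jm_sq h, Jm_sq h]
    refine Finset.sum_congr rfl fun i _ => ?_
    rw [Jm_inner_u h, Jm_inner_v h]
    ring
  have h2 : ‖Jm u v (Jm u v x)‖ = ‖Jm u v x‖ := by
    rwa [sq_eq_sq₀ (norm_nonneg _) (norm_nonneg _)] at h1
  have h3 : ‖Jm u v x‖ ^ 2 ≤ ‖Jm u v (Jm u v x)‖ * ‖x‖ := by
    have h4 := Jm_skew u v x (Jm u v x)
    have h5 := abs_real_inner_le_norm (Jm u v (Jm u v x)) x
    rw [real_inner_self_eq_norm_sq] at h4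
    rw [h4]
    exact (neg_le_abs _).trans h5
  rw [h2] at h3
  by_contra hlt
  push Not at hlt
  have h6 : 0 < ‖Jm u v x‖ := lt_of_le_of_lt (norm_nonneg _) hlt
  nlinarith

theorem Jm_OP (h : UV u v) {a b : A} (hab : OP a b) : inner ℝ (Jm u v a) b ^ 2 ≤ (1 : ℝ) := by
  obtain ⟨h1, h2, -⟩ := hab
  have ha : ‖a‖ = 1 := by
    have := real_inner_self_eq_norm_sq a
    rw [h1] at this
    nlinarith [norm_nonneg a]
  have hb : ‖b‖ = 1 := by
    have := real_inner_self_eq_norm_sq b
    rw [h2] at this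
    nlinarith [norm_nonneg b]
  have h3 := abs_real_inner_le_norm (Jm u v a) b
  have h4 := Jm_norm h a
  rw [hb, mul_one] at h3
  rw [ha] at h4
  rw [← sq_abs]
  nlinarith [abs_nonneg (inner ℝ (Jm u v a) b : ℝ)]

/-- the curvature form at the origin -/
def RF (β : ℝ) (J : A →L[ℝ] A) (a b c e : A) : ℝ :=
  inner ℝ a e * inner ℝ b c - inner ℝ a c * inner ℝ b e -
    β * (-2 * (inner ℝ (J a) b * inner ℝ (J c) e) + inner ℝ (J a) e * inner ℝ (J b) c -
      inner ℝ (J a) c * inner ℝ (J b) e)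

/-- the quadratic form on planes -/
def kF (β : ℝ) (J : A →L[ℝ] A) (a b : A) : ℝ := area a b - 3 * β * inner ℝ (J a) b ^ 2

theorem RF_berger {β : ℝ} {J : A →L[ℝ] A} (hJ : ∀ x y, inner ℝ (J x) y = - inner ℝ (J y) x)
    (x y z w : A) :
    24 * RF β J x y z w =
      (kF β J (x + w) (y + z) - kF β J (x + w) (y - z) - kF β J (x - w) (y + z) +
        kF β J (x - w) (y - z)) -
      (kF β J (y + w) (x + z) - kF β J (y + w) (x - z) - kF β J (y - w) (x + z) +
        kF β J (y - w) (x - z)) := by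
  have j1 := hJ y x
  have j3 := hJ w x
  have j5 := hJ w y
  have j6 := hJ w z
  have i1 : inner ℝ y x = inner ℝ x y := real_inner_comm _ _
  have i2 : inner ℝ z x = inner ℝ x z := real_inner_comm _ _
  have i3 : inner ℝ w x = inner ℝ x w := real_inner_comm _ _
  have i4 : inner ℝ z y = inner ℝ y z := real_inner_comm _ _
  have i5 : inner ℝ w y = inner ℝ y w := real_inner_comm _ _
  have i6 : inner ℝ w z = inner ℝ z w := real_inner_comm _ _
  simp only [RF, kF, area, map_add, map_sub, inner_add_left, inner_add_right, inner_sub_left,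
    inner_sub_right, j1, j3, j5, j6, i1, i2, i3, i4, i5, i6]
  ring

theorem sum_RF (h : UV u v) (β : ℝ) :
    ∑ i, ∑ j, RF β (Jm u v) (u i) (v i) (v j) (u j) = (m : ℝ) * (1 - β * (2 * m + 1)) := by
  have h1 : ∀ i j, RF β (Jm u v) (u i) (v i) (v j) (u j) =
      (if i = j then (1 - β) else 0) - 2 * β := by
    intro i j
    have e1 : inner ℝ (v i) (u j) = (0 : ℝ) := by rw [real_inner_comm]; exact h.uv j i
    rw [RF, Jm_u h, Jm_v h, Jm_v h]
    simp only [h.uu, h.vv, h.uv, inner_neg_left, e1, if_pos trivial]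
    by_cases hij : i = j
    · subst hij
      simp
      ring
    · rw [if_neg hij]
      simp [hij]
      ring
  simp only [h1, Finset.sum_sub_distrib, Finset.sum_ite_eq, Finset.mem_univ, if_true,
    Finset.sum_const, Finset.card_univ, Fintype.card_fin, nsmul_eq_mul]
  ring

theorem exists_UV (d : ℕ) : ∃ u v : Fin (d / 2) → EuclideanSpace ℝ (Fin d), UV u v := by
  let b := EuclideanSpace.basisFun (Fin d) ℝ
  refine ⟨fun i => b ⟨2 * i, by omega⟩, fun i => b ⟨2 * i + 1, by omega⟩, ?_, ?_, ?_⟩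
  · intro i j
    rw [b.inner_eq_ite]
    congr 1
    simp [Fin.ext_iff]
  · intro i j
    rw [b.inner_eq_ite]
    congr 1
    simp [Fin.ext_iff]
  · intro i j
    rw [b.inner_eq_ite, if_neg]
    simp only [Fin.ext_iff]
    omega

end Pool.Agent.TH605.Pinch
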