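import Pool.Agent.TH605.Pinch.Ball

/-!
Quadratic cometrics `W z = id + S z z` and their curvature expression.
-/

open Module Bundle Manifold ContDiff
open scoped Topology

set_option autoImplicit false
set_option synthInstance.maxHeartbeats 400000
set_option maxHeartbeats 4000000
set_option linter.unusedSectionVars false

noncomputable section

namespace Pool.Agent.TH605.Pinch

open Pool.Agent.H821R2 Pool.Agent.H893R5.HO

variable {A : Type*} [NormedAddCommGroup A] [InnerProductSpace ℝ A] [FiniteDimensional ℝ A]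

/-- the cometric `id + S z z` -/
def Wq (S : A →L[ℝ] A →L[ℝ] A →L[ℝ] A) (z : A) : A →L[ℝ] A :=
  ContinuousLinearMap.id ℝ A + S z z

/-- the symmetries of the quadratic part -/
structure QS (S : A →L[ℝ] A →L[ℝ] A →L[ℝ] A) (C : ℝ) : Prop where
  nonneg : 0 ≤ C
  bd : ∀ x y a, ‖S x y a‖ ≤ C * ‖x‖ * ‖y‖ * ‖a‖
  symm : ∀ x y, S x y = S y x
  adj : ∀ x y a b, inner ℝ (S x y a) b = inner ℝ a (S x y b)

variable {S : A →L[ℝ] A →L[ℝ] A →L[ℝ] A} {C : ℝ}

theorem Wq_apply (z a : A) : Wq S z a = a + S z z a := rfl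

theorem hasW (hS : QS S C) (z : A) : HasFDerivAt (Wq S) ((2 : ℝ) • S z) z := by
  have h1 : HasFDerivAt (fun z => S z z) (S z + S.flip z) z := by
    have := (S.hasFDerivAt (x := z)).clm_apply (hasFDerivAt_id z)
    refine this.congr_fderiv ?_
    ext h a
    simp
  have h2 := h1.const_add (ContinuousLinearMap.id ℝ A)
  refine h2.congr_fderiv ?_
  ext h a
  simp only [add_apply, ContinuousLinearMap.flip_apply,
    smul_apply]
  rw [hS.symm h z, two_smul]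

theorem hasWa (hS : QS S C) (z a : A) :
    HasFDerivAt (fun y => Wq S y a) ((2 : ℝ) • (S z).flip a) z := by
  have h1 := (hasW hS z).clm_apply (hasFDerivAt_const a z)
  refine h1.congr_fderiv ?_
  ext h
  simp

theorem smoothW : ContDiff ℝ ∞ (Wq S) :=
  contDiff_const.add (S.contDiff.clm_apply contDiff_id)

section

variable {r : ℝ} (hr : 0 < r)

theorem FF_fderiv (hS : QS S C) (z a b h : A) :
    fderiv ℝ ((eb (A := A) r hr).FF (Wq S) a b) z h = 2 * inner ℝ a (S z h b) := by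
  have h1 : HasFDerivAt ((eb (A := A) r hr).FF (Wq S) a b)
      ((innerSL ℝ a).comp ((2 : ℝ) • (S z).flip b)) z :=
    (innerSL ℝ a).hasFDerivAt.comp z (hasWa hS z b)
  rw [h1.fderiv]
  simp only [ContinuousLinearMap.comp_apply, smul_apply,
    ContinuousLinearMap.flip_apply, innerSL_apply_apply, inner_smul_right]

theorem Dir_FF (hS : QS S C) (z a b c : A) :
    Emb.Dir (Wq S) c ((eb (A := A) r hr).FF (Wq S) a b) z = 2 * inner ℝ a (S z (Wq S z c) b) :=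
  FF_fderiv hr hS z a b _

theorem Dir_Dir_FF (hS : QS S C) (z a b c e : A) :
    Emb.Dir (Wq S) e (Emb.Dir (Wq S) c ((eb (A := A) r hr).FF (Wq S) a b)) z =
      2 * inner ℝ a (S (Wq S z e) (Wq S z c) b) +
      4 * inner ℝ a (S z (S z (Wq S z e) c) b) := by
  have h0 : Emb.Dir (Wq S) c ((eb (A := A) r hr).FF (Wq S) a b) =
      fun z => 2 * inner ℝ a (S z (Wq S z c) b) := by
    funext z
    exact Dir_FF hr hS z a b c
  rw [h0]
  have h1 : HasFDerivAt (fun z => S z (Wq S z c)) ((S z).comp ((2 : ℝ) • (S z).flip c) +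
      S.flip (Wq S z c)) z :=
    (S.hasFDerivAt (x := z)).clm_apply (hasWa hS z c)
  have h2 : HasFDerivAt (fun z => S z (Wq S z c) b)
      (((S z).comp ((2 : ℝ) • (S z).flip c) + S.flip (Wq S z c)).flip b) z := by
    have := h1.clm_apply (hasFDerivAt_const b z)
    refine this.congr_fderiv ?_
    ext h
    simp
  have h3 : HasFDerivAt (fun z => 2 * inner ℝ a (S z (Wq S z c) b))
      ((2 : ℝ) • ((innerSL ℝ a).comp
        (((S z).comp ((2 : ℝ) • (S z).flip c) + S.flip (Wq S z c)).flip b))) z :=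
    ((innerSL ℝ a).hasFDerivAt.comp z h2).const_mul 2
  change fderiv ℝ _ z (Wq S z e) = _
  rw [h3.fderiv]
  simp only [ContinuousLinearMap.comp_apply, smul_apply,
    ContinuousLinearMap.flip_apply, innerSL_apply_apply, inner_smul_right,
    add_apply, map_smul, inner_add_right, smul_eq_mul]
  ring

/-- the main part of the curvature expression -/
def mainP (S : A →L[ℝ] A →L[ℝ] A →L[ℝ] A) (z a b : A) : ℝ :=
  inner ℝ b (S (Wq S z a) (Wq S z a) b) + 2 * inner ℝ b (S z (S z (Wq S z a) a) b) +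
  (inner ℝ a (S (Wq S z b) (Wq S z b) a) + 2 * inner ℝ a (S z (S z (Wq S z b) b) a)) -
  (2 * inner ℝ a (S (Wq S z a) (Wq S z b) b) + 2 * inner ℝ a (S z (S z (Wq S z a) b) b) +
    2 * inner ℝ a (S z (S z (Wq S z b) a) b))

theorem mainP_zero (z a b : A) (hz : z = 0) :
    mainP S z a b = inner ℝ b (S a a b) + inner ℝ a (S b b a) - 2 * inner ℝ a (S a b b) := by
  subst hz
  simp [mainP, Wq_apply]

theorem rep_norm (L : A →L[ℝ] ℝ) : ‖(eb (A := A) r hr).rep L‖ ≤ ‖L‖ := by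
  have h : (eb (A := A) r hr).rep L = (InnerProductSpace.toDual ℝ A).symm L := by
    refine Emb.rep_eq (X := eb (A := A) r hr) ?_
    intro v
    exact InnerProductSpace.toDual_symm_apply (x := v) (y := L)
  rw [h, LinearIsometryEquiv.norm_map]

theorem FF_fderiv_norm (hS : QS S C) (z a b : A) (ha : ‖a‖ = 1) (hb : ‖b‖ = 1) :
    ‖fderiv ℝ ((eb (A := A) r hr).FF (Wq S) a b) z‖ ≤ 2 * (C * ‖z‖) := by
  have hC := hS.nonneg
  refine ContinuousLinearMap.opNorm_le_bound _ (by positivity) fun h => ?_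
  rw [FF_fderiv hr hS, Real.norm_eq_abs, abs_mul, abs_two]
  have h1 := abs_real_inner_le_norm a (S z h b)
  have h2 : ‖S z h b‖ ≤ C * ‖z‖ * ‖h‖ * ‖b‖ := hS.bd z h b
  rw [ha, one_mul] at h1
  rw [hb, mul_one] at h2
  nlinarith

/-- the error bound -/
def err (S : A →L[ℝ] A →L[ℝ] A →L[ℝ] A) (C : ℝ) (z : A) : ℝ :=
  2 * (C * ‖z‖) ^ 2 * ‖Wq S z‖ + 24 * (C * ‖z‖ * ‖Wq S z‖) ^ 2

theorem Pexp_bound (hS : QS S C) (z a b γ : A) (ha : ‖a‖ = 1) (hb : ‖b‖ = 1)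
    (hz : ‖S z z‖ ≤ 1 / 2) (hγ : Wq S z γ = Emb.Br (Wq S) a b z) :
    |(eb (A := A) r hr).Pexp (Wq S) z a b γ - mainP S z a b| ≤ err S C z := by
  have hC := hS.nonneg
  set X := eb (A := A) r hr with hX
  -- the bracket
  have hBr : Emb.Br (Wq S) a b z = (2 : ℝ) • S z (Wq S z a) b - (2 : ℝ) • S z (Wq S z b) a := by
    rw [Emb.Br, (hasWa hS z b).fderiv, (hasWa hS z a).fderiv]
    simp
  have hWn : ∀ c : A, ‖Wq S z c‖ ≤ ‖Wq S z‖ * ‖c‖ := fun c => (Wq S z).le_opNorm c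
  have hSn : ∀ x y c : A, ‖S x y c‖ ≤ C * ‖x‖ * ‖y‖ * ‖c‖ := hS.bd
  have hBn : ‖Emb.Br (Wq S) a b z‖ ≤ 4 * (C * ‖z‖ * ‖Wq S z‖) := by
    rw [hBr]
    refine (norm_sub_le _ _).trans ?_
    rw [norm_smul, norm_smul]
    have h1 := hSn z (Wq S z a) b
    have h2 := hSn z (Wq S z b) a
    have h3 := hWn a
    have h4 := hWn b
    rw [ha, mul_one] at h2 h3
    rw [hb, mul_one] at h1 h4
    have h5 : C * ‖z‖ * ‖Wq S z a‖ ≤ C * ‖z‖ * ‖Wq S z‖ := by gcongr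
    have h6 : C * ‖z‖ * ‖Wq S z b‖ ≤ C * ‖z‖ * ‖Wq S z‖ := by gcongr
    simp only [Real.norm_ofNat]
    linarith
  have hγn : ‖γ‖ ≤ 2 * ‖Emb.Br (Wq S) a b z‖ := by
    have h1 : γ = Emb.Br (Wq S) a b z - S z z γ := by
      rw [← hγ, Wq_apply]; abel
    have h2 : ‖γ‖ ≤ ‖Emb.Br (Wq S) a b z‖ + ‖S z z γ‖ := by
      conv_lhs => rw [h1]
      exact norm_sub_le _ _
    have h3 : ‖S z z γ‖ ≤ 1 / 2 * ‖γ‖ := by
      refine (ContinuousLinearMap.le_opNorm _ _).trans ?_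
      gcongr
    linarith
  have hγB : |inner ℝ γ (Emb.Br (Wq S) a b z)| ≤ 32 * (C * ‖z‖ * ‖Wq S z‖) ^ 2 := by
    refine (abs_real_inner_le_norm _ _).trans ?_
    have h0 : 0 ≤ ‖Emb.Br (Wq S) a b z‖ := norm_nonneg _
    have h1 : ‖γ‖ * ‖Emb.Br (Wq S) a b z‖ ≤ 2 * ‖Emb.Br (Wq S) a b z‖ * ‖Emb.Br (Wq S) a b z‖ := by
      gcongr
    have h2 : ‖Emb.Br (Wq S) a b z‖ ^ 2 ≤ (4 * (C * ‖z‖ * ‖Wq S z‖)) ^ 2 := by
      gcongr
    nlinarith
  -- gradient terms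
  have hgr : ∀ a b c e : A, ‖a‖ = 1 → ‖b‖ = 1 → ‖c‖ = 1 → ‖e‖ = 1 →
      |fderiv ℝ (X.FF (Wq S) a b) z (Wq S z (X.rep (fderiv ℝ (X.FF (Wq S) c e) z)))| ≤
        4 * ((C * ‖z‖) ^ 2 * ‖Wq S z‖) := by
    intro a b c e ha hb hc he
    rw [← Real.norm_eq_abs]
    refine (ContinuousLinearMap.le_opNorm _ _).trans ?_
    have h1 := FF_fderiv_norm hr hS z a b ha hb
    have h2 := FF_fderiv_norm hr hS z c e hc he
    have h3 := rep_norm hr (fderiv ℝ (X.FF (Wq S) c e) z)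
    have h4 := hWn (X.rep (fderiv ℝ (X.FF (Wq S) c e) z))
    have h5 : ‖Wq S z (X.rep (fderiv ℝ (X.FF (Wq S) c e) z))‖ ≤ ‖Wq S z‖ * (2 * (C * ‖z‖)) := by
      refine h4.trans ?_
      gcongr
      exact h3.trans h2
    have h6 : ‖fderiv ℝ (X.FF (Wq S) a b) z‖ * ‖Wq S z (X.rep (fderiv ℝ (X.FF (Wq S) c e) z))‖ ≤
        (2 * (C * ‖z‖)) * (‖Wq S z‖ * (2 * (C * ‖z‖))) := by
      gcongr
    refine h6.trans (le_of_eq ?_)
    ring
  have g1 := hgr a a b b ha ha hb hb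
  have g2 := hgr a b a b ha hb ha hb
  have hBg : X.B γ (Emb.Br (Wq S) a b z) = inner ℝ γ (Emb.Br (Wq S) a b z) := rfl
  have e1 : X.Pexp (Wq S) z a b γ - mainP S z a b =
      - (1 / 4 * fderiv ℝ (X.FF (Wq S) a a) z (Wq S z (X.rep (fderiv ℝ (X.FF (Wq S) b b) z)))) +
      1 / 4 * fderiv ℝ (X.FF (Wq S) a b) z (Wq S z (X.rep (fderiv ℝ (X.FF (Wq S) a b) z))) -
      3 / 4 * inner ℝ γ (Emb.Br (Wq S) a b z) := by
    rw [Emb.Pexp, hγ, hBg, Dir_Dir_FF hr hS, Dir_Dir_FF hr hS, Dir_Dir_FF hr hS, Dir_Dir_FF hr hS,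
      mainP, hS.symm (Wq S z b) (Wq S z a)]
    ring
  rw [e1, err]
  rw [abs_le] at g1 g2 hγB ⊢
  constructor <;> linarith

theorem com_Wq (hS : QS S C) (hpos : ∀ z, ‖z‖ < r → ‖S z z‖ ≤ 1 / 2) :
    (eb (A := A) r hr).Com (Wq S) where
  smooth := smoothW
  symm := fun z a b => by
    change inner ℝ (Wq S z a) b = inner ℝ a (Wq S z b)
    rw [Wq_apply, Wq_apply, inner_add_left, inner_add_right, hS.adj]
  tan := fun p a => rfl
  pos := fun p a _ ha => by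
    change 0 < inner ℝ a (Wq S (jb r p) a)
    rw [Wq_apply, inner_add_right, real_inner_self_eq_norm_sq]
    have h1 := abs_real_inner_le_norm a (S (jb r p) (jb r p) a)
    have h2 : ‖S (jb r p) (jb r p) a‖ ≤ 1 / 2 * ‖a‖ := by
      refine (ContinuousLinearMap.le_opNorm _ _).trans ?_
      gcongr
      exact hpos _ (jb_mem hr p)
    have h3 := neg_abs_le (inner ℝ a (S (jb r p) (jb r p) a))
    have h4 : 0 < ‖a‖ := norm_pos_iff.2 ha
    have h5 : ‖a‖ * ‖S (jb r p) (jb r p) a‖ ≤ ‖a‖ * (1 / 2 * ‖a‖) := by gcongr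
    nlinarith

end

end Pool.Agent.TH605.Pinch
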