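import Pool.Agent.H821R2.PinchAlg

/-!
Upper estimate: pointwise `δ`-pinching with `δ > 2(m-1)/(2m+1)`, `m = ⌊d/2⌋`, forces a positive
curvature operator (normal form of bivectors and Berger's inequality).
-/

open Module

set_option autoImplicit false
set_option linter.unusedSectionVars false

noncomputable section

namespace Pool.Agent.TH605.Pinch

open Pool.Agent.H821R2

/-- `(x, y)` is an orthonormal pair -/
def OP {V : Type*} [NormedAddCommGroup V] [InnerProductSpace ℝ V] (x y : V) : Prop :=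
  inner ℝ x x = (1 : ℝ) ∧ inner ℝ y y = (1 : ℝ) ∧ inner ℝ x y = (0 : ℝ)

theorem sum_sq_aux {m : ℕ} (c : Fin m → ℝ) :
    (∑ i, |c i|) ^ 2 ≤ (m : ℝ) * ∑ i, (c i) ^ 2 := by
  have h := Finset.sum_mul_sq_le_sq_mul_sq Finset.univ (fun _ : Fin m => (1 : ℝ)) (fun i => |c i|)
  simp only [one_mul, one_pow, sq_abs] at h
  simpa using h

theorem curvForm_pos {V : Type*} [NormedAddCommGroup V] [InnerProductSpace ℝ V]
    [FiniteDimensional ℝ V] {R : V →ₗ[ℝ] V →ₗ[ℝ] V →ₗ[ℝ] V} (h : IsCurvatureTensor R)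
    {δ : ℝ} (hδ0 : 0 < δ) (hδ1 : δ ≤ 1)
    (hδ : 2 * (((finrank ℝ V / 2 : ℕ) : ℝ) - 1) < (2 * ((finrank ℝ V / 2 : ℕ) : ℝ) + 1) * δ)
    (hpos : ∀ x y : V, OP x y → 0 < kap R x y)
    (hpin : ∀ x y x' y' : V, OP x y → OP x' y' → δ * kap R x' y' ≤ kap R x y)
    (η : ⋀[ℝ]^2 V) (hη : η ≠ 0) : 0 < curvForm R η η := by
  obtain ⟨m, u, v, c, hm, huu, hvv, huv, hsum⟩ := exists_normal_form (finrank ℝ V) V rfl η
  -- the pairs are orthonormal
  have hop : ∀ i, OP (u i) (v i) := fun i => ⟨by rw [huu, if_pos rfl], by rw [hvv, if_pos rfl], huv i i⟩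
  have hm0 : 0 < m := by
    rcases Nat.eq_zero_or_pos m with h0 | h0
    · exfalso
      apply hη
      subst h0
      rw [hsum]
      simp
    · exact h0
  -- supremum of the sectional curvature
  obtain ⟨Δ, hΔ⟩ : ∃ Δ, Δ = sSup {k : ℝ | ∃ x y : V, OP x y ∧ k = kap R x y} := ⟨_, rfl⟩
  have hne : {k : ℝ | ∃ x y : V, OP x y ∧ k = kap R x y}.Nonempty :=
    ⟨_, u ⟨0, hm0⟩, v ⟨0, hm0⟩, hop _, rfl⟩
  have hbd : BddAbove {k : ℝ | ∃ x y : V, OP x y ∧ k = kap R x y} := by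
    refine ⟨kap R (u ⟨0, hm0⟩) (v ⟨0, hm0⟩) / δ, ?_⟩
    rintro k ⟨x, y, hxy, rfl⟩
    rw [le_div_iff₀ hδ0]
    have := hpin _ _ _ _ (hop ⟨0, hm0⟩) hxy
    linarith
  have hub : ∀ x y : V, OP x y → kap R x y ≤ Δ := by
    intro x y hxy
    rw [hΔ]
    exact le_csSup hbd ⟨x, y, hxy, rfl⟩
  have hlb : ∀ x y : V, OP x y → δ * Δ ≤ kap R x y := by
    intro x y hxy
    have : Δ ≤ kap R x y / δ := by
      rw [hΔ]
      apply csSup_le hne
      rintro k ⟨x', y', hxy', rfl⟩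
      rw [le_div_iff₀ hδ0]
      have := hpin _ _ _ _ hxy hxy'
      linarith
    rw [le_div_iff₀ hδ0] at this
    linarith
  have hΔ0 : 0 < Δ := lt_of_lt_of_le (hpos _ _ (hop ⟨0, hm0⟩)) (hub _ _ (hop ⟨0, hm0⟩))
  have hb := kap_bounds h (a := δ * Δ) (b := Δ) (fun x y h1 h2 h3 => ⟨hlb x y ⟨h1, h2, h3⟩,
    hub x y ⟨h1, h2, h3⟩⟩)
  -- expand
  have hexp : curvForm R η η = ∑ i, ∑ j, c i * c j * inner ℝ (R (u i) (v i) (v j)) (u j) := by
    rw [hsum]
    simp only [map_sum, map_smul, LinearMap.sum_apply, LinearMap.smul_apply, curvForm_wedge h,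
      smul_eq_mul, Finset.mul_sum]
    rw [Finset.sum_comm]
    refine Finset.sum_congr rfl fun i _ => Finset.sum_congr rfl fun j _ => ?_
    ring
  -- the terms
  have hM : 0 ≤ 2 / 3 * (Δ - δ * Δ) := by
    have : δ * Δ ≤ 1 * Δ := mul_le_mul_of_nonneg_right hδ1 hΔ0.le
    linarith
  have hvu : ∀ i j, inner ℝ (v i) (u j) = (0 : ℝ) := fun i j => by rw [real_inner_comm]; exact huv j i
  have hoff : ∀ i j, i ≠ j → |inner ℝ (R (u i) (v i) (v j)) (u j)| ≤ 2 / 3 * (Δ - δ * Δ) := by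
    intro i j hij
    have e1 : inner ℝ (u i) (u i) = (1 : ℝ) := by rw [huu, if_pos rfl]
    have e2 : inner ℝ (v i) (v i) = (1 : ℝ) := by rw [hvv, if_pos rfl]
    have e3 : inner ℝ (v j) (v j) = (1 : ℝ) := by rw [hvv, if_pos rfl]
    have e4 : inner ℝ (u j) (u j) = (1 : ℝ) := by rw [huu, if_pos rfl]
    have e5 : inner ℝ (u i) (u j) = (0 : ℝ) := by rw [huu, if_neg hij]
    have e6 : inner ℝ (v i) (v j) = (0 : ℝ) := by rw [hvv, if_neg hij]
    rw [abs_le]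
    constructor
    · have h1 := berger_inequality h (fun x y => (hb x y).1) (fun x y => (hb x y).2)
        (x := u i) (y := v i) (z := u j) (w := v j) e1 e2 e4 e3 (huv i i) e5 (huv i j) (hvu i j) e6
        (huv j j)
      have h2 := h.skew (u i) (v i) (u j) (v j)
      have h3 := real_inner_comm (u j) (R (u i) (v i) (v j))
      linarith
    · exact berger_inequality h (fun x y => (hb x y).1) (fun x y => (hb x y).2)
        (x := u i) (y := v i) (z := v j) (w := u j) e1 e2 e3 e4 (huv i i) (huv i j) e5 e6 (hvu i j)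
        (hvu j j)
  -- lower estimate for each term
  have hterm : ∀ i j, (if i = j then δ * Δ * c i ^ 2 + 2 / 3 * (Δ - δ * Δ) * c i ^ 2 else 0) -
      2 / 3 * (Δ - δ * Δ) * (|c i| * |c j|) ≤ c i * c j * inner ℝ (R (u i) (v i) (v j)) (u j) := by
    intro i j
    by_cases hij : i = j
    · subst hij
      rw [if_pos rfl]
      have h1 := hlb _ _ (hop i)
      have h2 : |c i| * |c i| = c i ^ 2 := by rw [← sq, sq_abs]
      have h3 : c i * c i * inner ℝ (R (u i) (v i) (v i)) (u i) = c i ^ 2 * kap R (u i) (v i) := by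
        rw [kap]; ring
      rw [h2, h3]
      nlinarith [sq_nonneg (c i)]
    · rw [if_neg hij]
      have h1 := hoff i j hij
      have h2 : |c i * c j * inner ℝ (R (u i) (v i) (v j)) (u j)| ≤
          2 / 3 * (Δ - δ * Δ) * (|c i| * |c j|) := by
        rw [abs_mul, abs_mul, mul_comm]
        exact mul_le_mul_of_nonneg_right h1 (by positivity)
      have h3 := neg_abs_le (c i * c j * inner ℝ (R (u i) (v i) (v j)) (u j))
      linarith
  have hS : 0 < ∑ i, c i ^ 2 := by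
    by_contra hS
    apply hη
    have h0 : ∑ i, c i ^ 2 = 0 := le_antisymm (not_lt.1 hS) (Finset.sum_nonneg fun i _ => sq_nonneg _)
    rw [Finset.sum_eq_zero_iff_of_nonneg (fun i _ => sq_nonneg _)] at h0
    rw [hsum]
    refine Finset.sum_eq_zero fun i hi => ?_
    have := h0 i hi
    rw [pow_eq_zero_iff (by norm_num)] at this
    rw [this, zero_smul]
  have hlow : (δ * Δ + 2 / 3 * (Δ - δ * Δ)) * ∑ i, c i ^ 2 -
      2 / 3 * (Δ - δ * Δ) * (∑ i, |c i|) ^ 2 ≤ curvForm R η η := by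
    rw [hexp]
    refine le_trans (le_of_eq ?_) (Finset.sum_le_sum fun i _ => Finset.sum_le_sum fun j _ =>
      hterm i j)
    rw [sq (∑ i, |c i|), Finset.sum_mul_sum]
    simp only [Finset.sum_sub_distrib, Finset.sum_ite_eq, Finset.mem_univ, if_true,
      Finset.mul_sum, Finset.sum_add_distrib, add_mul]
  have hcs := sum_sq_aux c
  have hmle : (m : ℝ) ≤ ((finrank ℝ V / 2 : ℕ) : ℝ) := by
    exact_mod_cast (by omega : m ≤ finrank ℝ V / 2)
  obtain ⟨k, hk⟩ : ∃ k : ℝ, k = ((finrank ℝ V / 2 : ℕ) : ℝ) := ⟨_, rfl⟩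
  rw [← hk] at hδ hmle
  obtain ⟨S, hSS⟩ : ∃ S : ℝ, S = ∑ i, c i ^ 2 := ⟨_, rfl⟩
  rw [← hSS] at hlow hcs hS
  have h5 : (∑ i, |c i|) ^ 2 ≤ k * S := hcs.trans (mul_le_mul_of_nonneg_right hmle hS.le)
  have h6 : 2 / 3 * (Δ - δ * Δ) * (∑ i, |c i|) ^ 2 ≤ 2 / 3 * (Δ - δ * Δ) * (k * S) :=
    mul_le_mul_of_nonneg_left h5 hM
  have h7 : 0 < ((2 * k + 1) * δ - 2 * (k - 1)) * (Δ * S) := mul_pos (by linarith) (mul_pos hΔ0 hS)
  nlinarith

end Pool.Agent.TH605.Pinch
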