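import Pool.Agent.TH605.Pinch.Quad
import Pool.Agent.TH605.Pinch.Upper

/-!
Sectional curvature bounds near the origin for quadratic cometrics.
-/

open Module Bundle Manifold ContDiff
open scoped Topology

set_option autoImplicit false
set_option synthInstance.maxHeartbeats 400000
set_option maxHeartbeats 4000000
set_option linter.unusedSectionVars false

noncomputable section

namespace Pool.Agent.TH605.Pinch

open Pool.Agent.H821R2 Pool.Agent.H893R5.HO

variable {A : Type*} [NormedAddCommGroup A] [InnerProductSpace ℝ A] [FiniteDimensional ℝ A]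
  {S : A →L[ℝ] A →L[ℝ] A →L[ℝ] A} {C : ℝ}

/-- the area of the plane with covectors `a, b` -/
def ar (S : A →L[ℝ] A →L[ℝ] A →L[ℝ] A) (z a b : A) : ℝ :=
  inner ℝ a (Wq S z a) * inner ℝ b (Wq S z b) - inner ℝ a (Wq S z b) ^ 2

theorem cont_W : Continuous (Wq S) := smoothW.continuous

theorem cont_Wa {T : Type*} [TopologicalSpace T] {z a : T → A} (hz : Continuous z)
    (ha : Continuous a) : Continuous (fun t => Wq S (z t) (a t)) :=
  (cont_W.comp hz).clm_apply ha

theorem cont_S {T : Type*} [TopologicalSpace T] {x y a : T → A} (hx : Continuous x)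
    (hy : Continuous y) (ha : Continuous a) : Continuous (fun t => S (x t) (y t) (a t)) :=
  ((S.continuous.comp hx).clm_apply hy).clm_apply ha

theorem cont_mainP : Continuous (fun q : A × A × A => mainP S q.1 q.2.1 q.2.2) := by
  have hz : Continuous (fun q : A × A × A => q.1) := continuous_fst
  have ha : Continuous (fun q : A × A × A => q.2.1) := continuous_fst.comp continuous_snd
  have hb : Continuous (fun q : A × A × A => q.2.2) := continuous_snd.comp continuous_snd
  have hWa := cont_Wa (S := S) hz ha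
  have hWb := cont_Wa (S := S) hz hb
  unfold mainP
  refine Continuous.sub (Continuous.add (Continuous.add ?_ ?_) (Continuous.add ?_ ?_))
    (Continuous.add (Continuous.add ?_ ?_) ?_)
  · exact hb.inner (cont_S hWa hWa hb)
  · exact continuous_const.mul (hb.inner (cont_S hz (cont_S hz hWa ha) hb))
  · exact ha.inner (cont_S hWb hWb ha)
  · exact continuous_const.mul (ha.inner (cont_S hz (cont_S hz hWb hb) ha))
  · exact continuous_const.mul (ha.inner (cont_S hWa hWb hb))
  · exact continuous_const.mul (ha.inner (cont_S hz (cont_S hz hWa hb) hb))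
  · exact continuous_const.mul (ha.inner (cont_S hz (cont_S hz hWb ha) hb))

theorem cont_ar : Continuous (fun q : A × A × A => ar S q.1 q.2.1 q.2.2) := by
  have hz : Continuous (fun q : A × A × A => q.1) := continuous_fst
  have ha : Continuous (fun q : A × A × A => q.2.1) := continuous_fst.comp continuous_snd
  have hb : Continuous (fun q : A × A × A => q.2.2) := continuous_snd.comp continuous_snd
  have hWa := cont_Wa (S := S) hz ha
  have hWb := cont_Wa (S := S) hz hb
  unfold ar
  exact ((ha.inner hWa).mul (hb.inner hWb)).sub ((ha.inner hWb).pow 2)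

theorem cont_err : Continuous (fun z : A => err S C z) := by
  have h1 : Continuous (fun z : A => ‖Wq S z‖) := cont_W.norm
  unfold err
  fun_prop

theorem ar_zero {a b : A} (h : OP a b) : ar S 0 a b = 1 := by
  obtain ⟨h1, h2, h3⟩ := h
  simp only [ar, Wq_apply, map_zero, zero_apply, add_zero, h1, h2, h3]
  norm_num

theorem err_zero : err S C (0 : A) = 0 := by simp [err]

theorem isCompact_OP : IsCompact {p : A × A | OP p.1 p.2} := by
  have h := isCompact_pairs (V := A)
  convert h using 1
  ext p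
  simp only [OP, Set.mem_ofPred_eq, real_inner_self_eq_norm_sq]
  constructor
  · rintro ⟨h1, h2, h3⟩
    refine ⟨?_, ?_, h3⟩
    · nlinarith [norm_nonneg p.1]
    · nlinarith [norm_nonneg p.2]
  · rintro ⟨h1, h2, h3⟩
    rw [h1, h2]
    exact ⟨by norm_num, by norm_num, h3⟩

theorem exists_r {lo hi : ℝ}
    (hb : ∀ a b : A, OP a b → lo < mainP S 0 a b ∧ mainP S 0 a b < hi) :
    ∃ r : ℝ, 0 < r ∧ (∀ z : A, ‖z‖ < r → ‖S z z‖ ≤ 1 / 2) ∧
      ∀ z : A, ‖z‖ < r → ∀ a b : A, OP a b →
        lo * ar S z a b ≤ mainP S z a b - err S C z ∧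
        mainP S z a b + err S C z ≤ hi * ar S z a b := by
  have h1 : ∀ᶠ z in 𝓝 (0 : A), ‖S z z‖ ≤ 1 / 2 := by
    have hc : Continuous (fun z : A => ‖S z z‖) := (S.continuous.clm_apply continuous_id).norm
    have := hc.tendsto 0
    simp only [map_zero, norm_zero] at this
    exact (this.eventually (gt_mem_nhds (by norm_num : (0 : ℝ) < 1 / 2))).mono fun z hz => le_of_lt hz
  have h2 : ∀ᶠ z in 𝓝 (0 : A), ∀ q ∈ {p : A × A | OP p.1 p.2},
      0 < mainP S z q.1 q.2 - err S C z - lo * ar S z q.1 q.2 := by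
    refine isCompact_OP.eventually_forall_of_forall_eventually fun q hq => ?_
    have hc : Continuous (fun t : A × A × A =>
        mainP S t.1 t.2.1 t.2.2 - err S C t.1 - lo * ar S t.1 t.2.1 t.2.2) :=
      (cont_mainP.sub (cont_err.comp continuous_fst)).sub (continuous_const.mul cont_ar)
    have h3 : 0 < mainP S 0 q.1 q.2 - err S C 0 - lo * ar S 0 q.1 q.2 := by
      rw [err_zero, ar_zero hq]
      have := (hb _ _ hq).1
      linarith
    exact (hc.tendsto (0, q)).eventually (lt_mem_nhds h3)
  have h3 : ∀ᶠ z in 𝓝 (0 : A), ∀ q ∈ {p : A × A | OP p.1 p.2},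
      0 < hi * ar S z q.1 q.2 - (mainP S z q.1 q.2 + err S C z) := by
    refine isCompact_OP.eventually_forall_of_forall_eventually fun q hq => ?_
    have hc : Continuous (fun t : A × A × A =>
        hi * ar S t.1 t.2.1 t.2.2 - (mainP S t.1 t.2.1 t.2.2 + err S C t.1)) :=
      (continuous_const.mul cont_ar).sub (cont_mainP.add (cont_err.comp continuous_fst))
    have h3 : 0 < hi * ar S 0 q.1 q.2 - (mainP S 0 q.1 q.2 + err S C 0) := by
      rw [err_zero, ar_zero hq]
      have := (hb _ _ hq).2
      linarith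
    exact (hc.tendsto (0, q)).eventually (lt_mem_nhds h3)
  obtain ⟨r, hr, h⟩ := Metric.eventually_nhds_iff.1 (h1.and (h2.and h3))
  refine ⟨r, hr, fun z hz => (h (by simpa using hz)).1, fun z hz a b hab => ?_⟩
  obtain ⟨-, h4, h5⟩ := h (y := z) (by simpa using hz)
  have h6 := h4 (a, b) hab
  have h7 := h5 (a, b) hab
  constructor <;> linarith

section

variable {r : ℝ} {hr : 0 < r}

theorem sec_bounds {lo hi : ℝ} (hS : QS S C) (hpos : ∀ z : A, ‖z‖ < r → ‖S z z‖ ≤ 1 / 2)
    (hb : ∀ z : A, ‖z‖ < r → ∀ a b : A, OP a b →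
        lo * ar S z a b ≤ mainP S z a b - err S C z ∧
        mainP S z a b + err S C z ≤ hi * ar S z a b)
    [Nontrivial A]
    {g : ContMDiffRiemannianMetric 𝓘(ℝ, A) ∞ A (fun x : A => TangentSpace 𝓘(ℝ, A) x)}
    (hg : (eb (A := A) r hr).Dual g (Wq S))
    {cov : CovariantDerivative 𝓘(ℝ, A) A (TangentSpace 𝓘(ℝ, A) : A → Type _)}
    (h : IsLeviCivita g cov) {R : CurvField 𝓘(ℝ, A) A} (hR : IsRiemannTensor cov R)
    (p : A) (u v : TangentSpace 𝓘(ℝ, A) p) (huv : OrthoPair g p u v) :
    lo ≤ sec g R p u v ∧ sec g R p u v ≤ hi := by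
  have hW := com_Wq hr hS hpos
  obtain ⟨a, -, ha⟩ := Emb.exists_covec hW hg p u
  obtain ⟨b, -, hb'⟩ := Emb.exists_covec hW hg p v
  obtain ⟨huu, hvv, huv0⟩ := huv
  have gram := exists_gram (V := A) a b
  rcases gram with ⟨s, t, e, hae, hbe⟩ | ⟨s, t', t, e, f, he, hf, hef, hae, hbe⟩
  · exfalso
    obtain ⟨Z, -, hZ⟩ := Emb.exists_X hW e
    have hu : u = s • Z p := by
      refine (eb (A := A) r hr).d_inj p ?_
      rw [map_smul, hZ, ← ha, hae, map_smul]
    have hv : v = t • Z p := by
      refine (eb (A := A) r hr).d_inj p ?_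
      rw [map_smul, hZ, ← hb', hbe, map_smul]
    have hq : g.inner p u u * g.inner p v v = g.inner p u v ^ 2 := by
      rw [hu, hv]
      simp only [map_smul, smul_apply, smul_eq_mul]
      ring
    rw [huu, hvv, huv0] at hq
    norm_num at hq
  · obtain ⟨Z, -, hZ⟩ := Emb.exists_X hW e
    obtain ⟨Y, -, hY⟩ := Emb.exists_X hW f
    have hu : u = s • Z p := by
      refine (eb (A := A) r hr).d_inj p ?_
      rw [map_smul, hZ, ← ha, hae, map_smul]
    have hv : v = t' • Z p + t • Y p := by
      refine (eb (A := A) r hr).d_inj p ?_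
      rw [map_add, map_smul, map_smul, hZ, hY, ← hb', hbe, map_add, map_smul, map_smul]
    have gZZ : g.inner p (Z p) (Z p) = inner ℝ e (Wq S (jb r p) e) := by
      rw [hg p e (Z p) (hZ p), hZ]; rfl
    have gYY : g.inner p (Y p) (Y p) = inner ℝ f (Wq S (jb r p) f) := by
      rw [hg p f (Y p) (hY p), hY]; rfl
    have gZY : g.inner p (Z p) (Y p) = inner ℝ e (Wq S (jb r p) f) := by
      rw [hg p e (Z p) (hZ p), hY]; rfl
    have gYZ : g.inner p (Y p) (Z p) = inner ℝ e (Wq S (jb r p) f) := by
      rw [← gZY]; exact g.symm p _ _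
    have harea : (s * t) ^ 2 * ar S (jb r p) e f = 1 := by
      have hq : g.inner p u u * g.inner p v v - g.inner p u v ^ 2 = 1 := by
        rw [huu, hvv, huv0]; norm_num
      rw [hu, hv] at hq
      simp only [map_smul, map_add, smul_apply, add_apply, smul_eq_mul, gZZ, gYY, gZY, gYZ] at hq
      rw [ar, ← hq]
      ring
    obtain ⟨γ, -, hγ, hK⟩ := Emb.curv_eq hW hg h hR p e f (Z p) (Y p) (hZ p) (hY p)
    have hn := jb_mem (A := A) hr p
    have en : ‖e‖ = 1 := by
      have := real_inner_self_eq_norm_sq e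
      rw [he] at this
      nlinarith [norm_nonneg e]
    have fn : ‖f‖ = 1 := by
      have := real_inner_self_eq_norm_sq f
      rw [hf] at this
      nlinarith [norm_nonneg f]
    have hP := Pexp_bound hr hS (jb r p) e f γ en fn (hpos _ hn) hγ
    have hP' : |g.inner p (R p (Z p) (Y p) (Y p)) (Z p) - mainP S (jb r p) e f| ≤
        err S C (jb r p) := by
      rw [hK]; exact hP
    obtain ⟨h1, h2⟩ := hb _ hn e f ⟨he, hf, hef⟩
    rw [abs_le] at hP'
    have hsec : sec g R p u v = (s * t) ^ 2 * g.inner p (R p (Z p) (Y p) (Y p)) (Z p) := by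
      rw [sec, hu, hv, Emb.kappa_scale h hR]
    have hsq : 0 ≤ (s * t) ^ 2 := sq_nonneg _
    rw [hsec]
    constructor
    · have h3 : (s * t) ^ 2 * (lo * ar S (jb r p) e f) ≤
          (s * t) ^ 2 * g.inner p (R p (Z p) (Y p) (Y p)) (Z p) := by
        apply mul_le_mul_of_nonneg_left _ hsq
        linarith
      have h4 : (s * t) ^ 2 * (lo * ar S (jb r p) e f) = lo := by
        rw [mul_left_comm, harea, mul_one]
      linarith
    · have h3 : (s * t) ^ 2 * g.inner p (R p (Z p) (Y p) (Y p)) (Z p) ≤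
          (s * t) ^ 2 * (hi * ar S (jb r p) e f) := by
        apply mul_le_mul_of_nonneg_left _ hsq
        linarith
      have h4 : (s * t) ^ 2 * (hi * ar S (jb r p) e f) = hi := by
        rw [mul_left_comm, harea, mul_one]
      linarith

end

end Pool.Agent.TH605.Pinch
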